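import Mathlib

set_option autoImplicit false

/-!
# The maximal spanning time is at most `9 s ^ 3`

Growth dynamics on the Hamming plane with a zero-set `Z`; `s` is the side of the largest square in
`Z`. We show that every spanning set spans in at most `2 s (s ^ 2 + s + 2) + 1 ≤ 9 s ^ 3` steps.

Proof. Call a line light at time `t` if it contains fewer than `s` points. Two heavy lines meet in a
point that is occupied in the next step, so if no light line changes in two consecutive steps, the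
process has stopped. If a light column with `v` points changes in step `t`, but not in step `t - 1`,
then the set `R_v` of the rows which give a point to every column with `v` points has grown at time
`t` from a set with at most `v` elements; this happens at most `v + 1` times for every `v < s`. A
light column can change in at most `s` consecutive steps. So light lines change in at most
`2 s (1 + s (s + 1) / 2)` steps.
-/

namespace Pool.Agent.Results.MP_e645df_co.CubicBound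

/-- The rectangle `R_{a,b} = ([0, a-1] × [0, b-1]) ∩ ℤ_+^2`. -/
def rect (a b : ℕ) : Set (ℕ × ℕ) := {x | x.1 < a ∧ x.2 < b}

/-- Zero-sets: unions of rectangles `R_{a,b}`, `a, b ≥ 1`, over a finite index set. -/
def IsZeroSet (Z : Set (ℕ × ℕ)) : Prop :=
  ∃ I : Finset (ℕ × ℕ), (∀ p ∈ I, 1 ≤ p.1 ∧ 1 ≤ p.2) ∧ Z = ⋃ p ∈ I, rect p.1 p.2

/-- `row(x, A)`: the number of points of `A` on the horizontal line through `x`. -/
noncomputable def row (x : ℕ × ℕ) (A : Set (ℕ × ℕ)) : ℕ∞ := {i : ℕ | (i, x.2) ∈ A}.encard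

/-- `col(x, A)`: the number of points of `A` on the vertical line through `x`. -/
noncomputable def col (x : ℕ × ℕ) (A : Set (ℕ × ℕ)) : ℕ∞ := {j : ℕ | (x.1, j) ∈ A}.encard

/-- The pair `(a, b)` of possibly infinite numbers lies in `Z`. -/
def InZ (Z : Set (ℕ × ℕ)) (a b : ℕ∞) : Prop := ∃ p ∈ Z, (p.1 : ℕ∞) = a ∧ (p.2 : ℕ∞) = b

/-- The growth map `T(A) = A ∪ {x : (row(x, A), col(x, A)) ∉ Z}`. -/
def step (Z A : Set (ℕ × ℕ)) : Set (ℕ × ℕ) := A ∪ {x | ¬ InZ Z (row x A) (col x A)}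

/-- `A` spans: the union of the sets `T^t(A)` is the whole of `ℤ_+^2`. -/
def Spans (Z A : Set (ℕ × ℕ)) : Prop := ⋃ t : ℕ, (step Z)^[t] A = Set.univ

/-- The spanning time `τ(Z, A) = min {t : T^t(A) = ℤ_+^2}` (infinite if there is no such `t`). -/
noncomputable def tau (Z A : Set (ℕ × ℕ)) : ℕ∞ :=
  ⨅ (t : ℕ) (_ : (step Z)^[t] A = Set.univ), (t : ℕ∞)

/-- The maximal spanning time `μ(Z)`: the supremum of the spanning times of the finite spanning
sets. -/
noncomputable def mu (Z : Set (ℕ × ℕ)) : ℕ∞ :=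
  ⨆ (A : Set (ℕ × ℕ)) (_ : A.Finite ∧ Spans Z A), tau Z A

/-! ### Basic facts -/

/-- The properties of `Z` and `s` that we use. -/
structure Good (Z : Set (ℕ × ℕ)) (s : ℕ) : Prop where
  down : ∀ {a b a' b' : ℕ∞}, InZ Z a b → a' ≤ a → b' ≤ b → InZ Z a' b'
  light : ∀ {a b : ℕ∞}, a < s → b < s → InZ Z a b
  heavy : ∀ {a b : ℕ∞}, (s : ℕ∞) ≤ a → (s : ℕ∞) ≤ b → ¬ InZ Z a b

lemma good_of_zeroSet {Z : Set (ℕ × ℕ)} (hZ : IsZeroSet Z) {s : ℕ} (h1 : rect s s ⊆ Z)
    (h2 : ¬ rect (s + 1) (s + 1) ⊆ Z) : Good Z s := by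
  obtain ⟨I, -, rfl⟩ := hZ
  have hdown : ∀ {a b a' b' : ℕ}, (a, b) ∈ (⋃ p ∈ I, rect p.1 p.2) → a' ≤ a → b' ≤ b →
      (a', b') ∈ (⋃ p ∈ I, rect p.1 p.2) := by
    intro a b a' b' h ha hb
    simp only [Set.mem_iUnion, rect, Set.mem_setOf_eq] at h ⊢
    obtain ⟨p, hp, h3, h4⟩ := h
    exact ⟨p, hp, by omega, by omega⟩
  refine ⟨?_, ?_, ?_⟩
  · rintro a b a' b' ⟨⟨p, q⟩, hp, rfl, rfl⟩ ha hb
    lift a' to ℕ using ne_top_of_le_ne_top (ENat.coe_ne_top _) ha
    lift b' to ℕ using ne_top_of_le_ne_top (ENat.coe_ne_top _) hb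
    simp only [Nat.cast_le] at ha hb
    exact ⟨(a', b'), hdown hp ha hb, rfl, rfl⟩
  · intro a b ha hb
    lift a to ℕ using ne_top_of_lt ha
    lift b to ℕ using ne_top_of_lt hb
    simp only [Nat.cast_lt] at ha hb
    exact ⟨(a, b), h1 ⟨ha, hb⟩, rfl, rfl⟩
  · rintro a b ha hb ⟨⟨p, q⟩, hp, rfl, rfl⟩
    simp only [Nat.cast_le] at ha hb
    apply h2
    rintro ⟨x, y⟩ ⟨hx, hy⟩
    simp only at hx hy
    exact hdown hp (by omega) (by omega)

lemma subset_step (Z A : Set (ℕ × ℕ)) : A ⊆ step Z A := Set.subset_union_left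

lemma iter_mono (Z A : Set (ℕ × ℕ)) {t t' : ℕ} (h : t ≤ t') :
    (step Z)^[t] A ⊆ (step Z)^[t'] A := by
  induction t', h using Nat.le_induction with
  | base => exact subset_rfl
  | succ k _ ih =>
    rw [Function.iterate_succ_apply']
    exact ih.trans (subset_step _ _)

/-- A light column changes in step `t`. -/
def LC (Z A : Set (ℕ × ℕ)) (s t : ℕ) : Prop :=
  ∃ i : ℕ, {j : ℕ | (i, j) ∈ (step Z)^[t] A}.encard < s ∧
    {j : ℕ | (i, j) ∈ (step Z)^[t] A} ≠ {j : ℕ | (i, j) ∈ (step Z)^[t + 1] A}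

/-- The set of the rows that give a point to every column with `v` points. -/
def rows (Z A : Set (ℕ × ℕ)) (v t : ℕ) : Set ℕ :=
  {j | ¬ InZ Z {i : ℕ | (i, j) ∈ (step Z)^[t] A}.encard (v : ℕ∞)}

lemma rows_mono {Z A : Set (ℕ × ℕ)} {s : ℕ} (hZ : Good Z s) (v : ℕ) {t t' : ℕ} (h : t ≤ t') :
    rows Z A v t ⊆ rows Z A v t' := by
  intro j hj hj'
  refine hj (hZ.down hj' (Set.encard_le_encard ?_) le_rfl)
  intro i hi
  exact iter_mono Z A h hi

lemma column_succ {Z A : Set (ℕ × ℕ)} {i v t : ℕ}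
    (hv : {j : ℕ | (i, j) ∈ (step Z)^[t] A}.encard = v) :
    {j : ℕ | (i, j) ∈ (step Z)^[t + 1] A} = {j : ℕ | (i, j) ∈ (step Z)^[t] A} ∪ rows Z A v t := by
  ext j
  rw [Function.iterate_succ_apply']
  simp only [step, Set.mem_setOf_eq, Set.mem_union, row, col, rows]
  rw [hv]

/-- The truncated size of `rows`. -/
noncomputable def phi (Z A : Set (ℕ × ℕ)) (v t : ℕ) : ℕ :=
  (min (rows Z A v t).encard ((v : ℕ∞) + 1)).toNat

lemma coe_phi (Z A : Set (ℕ × ℕ)) (v t : ℕ) :
    (phi Z A v t : ℕ∞) = min (rows Z A v t).encard ((v : ℕ∞) + 1) := by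
  unfold phi
  rw [ENat.coe_toNat]
  refine ne_top_of_le_ne_top ?_ (min_le_right _ _)
  exact_mod_cast ENat.coe_ne_top (v + 1)

lemma phi_le (Z A : Set (ℕ × ℕ)) (v t : ℕ) : phi Z A v t ≤ v + 1 := by
  have := (coe_phi Z A v t).le.trans (min_le_right _ _)
  exact_mod_cast this

lemma phi_mono {Z A : Set (ℕ × ℕ)} {s : ℕ} (hZ : Good Z s) (v : ℕ) {t t' : ℕ} (h : t ≤ t') :
    phi Z A v t ≤ phi Z A v t' := by
  have : (phi Z A v t : ℕ∞) ≤ phi Z A v t' := by
    rw [coe_phi, coe_phi]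
    exact min_le_min_right _ (Set.encard_le_encard (rows_mono hZ v h))
  exact_mod_cast this

/-- The potential. -/
noncomputable def Phi (Z A : Set (ℕ × ℕ)) (s t : ℕ) : ℕ := ∑ v ∈ Finset.range s, phi Z A v t

lemma Phi_mono {Z A : Set (ℕ × ℕ)} {s : ℕ} (hZ : Good Z s) {t t' : ℕ} (h : t ≤ t') :
    Phi Z A s t ≤ Phi Z A s t' :=
  Finset.sum_le_sum fun v _ => phi_mono hZ v h

lemma sum_succ (s : ℕ) : ∑ v ∈ Finset.range s, (v + 1) = s * (s + 1) / 2 := by
  have h : ∀ m : ℕ, (∑ x ∈ Finset.range m, (x + 1)) * 2 = m * (m + 1) := by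
    intro m
    induction m with
    | zero => simp
    | succ k ih => rw [Finset.sum_range_succ, add_mul, ih]; ring
  have := h s
  omega

lemma Phi_le (Z A : Set (ℕ × ℕ)) (s t : ℕ) : Phi Z A s t ≤ s * (s + 1) / 2 := by
  rw [← sum_succ]
  exact Finset.sum_le_sum fun v _ => phi_le Z A v t

/-- The times `0` and those at which the potential has grown. -/
def Fresh (Z A : Set (ℕ × ℕ)) (s t : ℕ) : Prop := t = 0 ∨ Phi Z A s (t - 1) < Phi Z A s t

lemma fresh_of_change {Z A : Set (ℕ × ℕ)} {s : ℕ} (hZ : Good Z s) {i t : ℕ}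
    (h1 : {j : ℕ | (i, j) ∈ (step Z)^[t + 1] A}.encard < s)
    (h2 : {j : ℕ | (i, j) ∈ (step Z)^[t + 1] A} ≠ {j : ℕ | (i, j) ∈ (step Z)^[t + 1 + 1] A})
    (h3 : {j : ℕ | (i, j) ∈ (step Z)^[t] A} = {j : ℕ | (i, j) ∈ (step Z)^[t + 1] A}) :
    Fresh Z A s (t + 1) := by
  right
  obtain ⟨v, hv⟩ := ENat.ne_top_iff_exists.1 (ne_top_of_lt h1)
  have hvs : v < s := by
    rw [← hv] at h1
    exact_mod_cast h1
  have e1 := column_succ (Z := Z) (A := A) (i := i) (v := v) (t := t) (by rw [h3, hv])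
  have e2 := column_succ (Z := Z) (A := A) (i := i) (v := v) (t := t + 1) hv.symm
  -- the rows at time `t` are in the column
  have hsub : rows Z A v t ⊆ {j : ℕ | (i, j) ∈ (step Z)^[t + 1] A} := by
    rw [e1]; exact Set.subset_union_right
  have hnsub : ¬ rows Z A v (t + 1) ⊆ {j : ℕ | (i, j) ∈ (step Z)^[t + 1] A} := by
    intro h
    apply h2
    rw [e2, Set.union_eq_left.2 h]
  have hcard : (rows Z A v t).encard ≤ v := by
    rw [hv]; exact Set.encard_le_encard hsub
  have hfin : (rows Z A v t).Finite := by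
    rw [← Set.encard_lt_top_iff]
    exact lt_of_le_of_lt hcard (ENat.coe_lt_top v)
  have hss : rows Z A v t ⊂ rows Z A v (t + 1) := by
    refine ⟨rows_mono hZ v (Nat.le_succ t), fun h => hnsub (h.trans hsub)⟩
  have hlt : (rows Z A v t).encard < (rows Z A v (t + 1)).encard := hfin.encard_lt_encard hss
  have hphi : phi Z A v t < phi Z A v (t + 1) := by
    have : (phi Z A v t : ℕ∞) < phi Z A v (t + 1) := by
      rw [coe_phi, coe_phi]
      have h5 : (rows Z A v t).encard < (v : ℕ∞) + 1 :=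
        lt_of_le_of_lt hcard (by exact_mod_cast Nat.lt_succ_self v)
      rw [min_eq_left h5.le]
      exact lt_min hlt h5
    exact_mod_cast this
  show Phi Z A s t < Phi Z A s (t + 1)
  exact Finset.sum_lt_sum (fun w _ => phi_mono hZ w (Nat.le_succ t))
    ⟨v, Finset.mem_range.2 hvs, hphi⟩

lemma exists_fresh {Z A : Set (ℕ × ℕ)} {s : ℕ} (hZ : Good Z s) (i : ℕ) (t : ℕ) :
    {j : ℕ | (i, j) ∈ (step Z)^[t] A}.encard < s →
    {j : ℕ | (i, j) ∈ (step Z)^[t] A} ≠ {j : ℕ | (i, j) ∈ (step Z)^[t + 1] A} →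
    ∃ t₀ k : ℕ, Fresh Z A s t₀ ∧ t = t₀ + k ∧
      (k : ℕ∞) ≤ {j : ℕ | (i, j) ∈ (step Z)^[t] A}.encard := by
  induction t with
  | zero => exact fun _ _ => ⟨0, 0, Or.inl rfl, rfl, by simp⟩
  | succ t ih =>
    intro h1 h2
    by_cases h3 : {j : ℕ | (i, j) ∈ (step Z)^[t] A} = {j : ℕ | (i, j) ∈ (step Z)^[t + 1] A}
    · exact ⟨t + 1, 0, fresh_of_change hZ h1 h2 h3, rfl, by simp⟩
    · have hsub : {j : ℕ | (i, j) ∈ (step Z)^[t] A} ⊆ {j : ℕ | (i, j) ∈ (step Z)^[t + 1] A} :=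
        fun j hj => iter_mono Z A (Nat.le_succ t) hj
      have hle := Set.encard_le_encard hsub
      have hlt0 := lt_of_le_of_lt hle h1
      obtain ⟨t₀, k, hf, hk, hk'⟩ := ih hlt0 h3
      refine ⟨t₀, k + 1, hf, by omega, ?_⟩
      have hfin : {j : ℕ | (i, j) ∈ (step Z)^[t] A}.Finite := by
        rw [← Set.encard_lt_top_iff]
        exact lt_of_lt_of_le hlt0 le_top
      have hlt := hfin.encard_lt_encard (hsub.ssubset_of_ne h3)
      push_cast
      calc (k : ℕ∞) + 1 ≤ {j : ℕ | (i, j) ∈ (step Z)^[t] A}.encard + 1 := by gcongr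
        _ ≤ _ := Order.add_one_le_of_lt hlt

open Classical in
lemma card_fresh {Z A : Set (ℕ × ℕ)} {s : ℕ} (hZ : Good Z s) (N : ℕ) :
    ((Finset.range N).filter (Fresh Z A s)).card ≤ s * (s + 1) / 2 + 1 := by
  have h := Finset.card_le_card_of_injOn (s := (Finset.range N).filter (Fresh Z A s))
    (t := Finset.range (s * (s + 1) / 2 + 1)) (fun t => if t = 0 then 0 else Phi Z A s t) ?_ ?_
  · simpa using h
  · intro t _
    simp only [Finset.coe_range, Set.mem_Iio]
    split_ifs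
    · omega
    · exact Nat.lt_succ_of_le (Phi_le Z A s t)
  · have key : ∀ t t', t < t' → Fresh Z A s t → Fresh Z A s t' →
        (if t = 0 then 0 else Phi Z A s t) < (if t' = 0 then 0 else Phi Z A s t') := by
      intro t t' htt ht ht'
      have h1 : ¬ t' = 0 := by omega
      rw [if_neg h1]
      have h2 : Phi Z A s (t' - 1) < Phi Z A s t' := ht'.resolve_left h1
      split_ifs with h3
      · omega
      · exact lt_of_le_of_lt (Phi_mono hZ (by omega)) h2
    intro t ht t' ht' he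
    simp only [Finset.coe_filter, Set.mem_setOf_eq] at ht ht'
    rcases lt_trichotomy t t' with hlt | heq | hlt
    · exact absurd he (key t t' hlt ht.2 ht'.2).ne
    · exact heq
    · exact absurd he (key t' t hlt ht'.2 ht.2).ne'

open Classical in
/-- Light columns change in at most `s (s (s + 1) / 2 + 1)` steps. -/
lemma card_LC {Z A : Set (ℕ × ℕ)} {s : ℕ} (hZ : Good Z s) (N : ℕ) :
    ((Finset.range N).filter (LC Z A s)).card ≤ (s * (s + 1) / 2 + 1) * s := by
  have hsub : (Finset.range N).filter (LC Z A s) ⊆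
      ((((Finset.range N).filter (Fresh Z A s)) ×ˢ (Finset.range s)).image
        fun q : ℕ × ℕ => q.1 + q.2) := by
    intro t ht
    rw [Finset.mem_filter, Finset.mem_range] at ht
    obtain ⟨htN, i, h1, h2⟩ := ht
    obtain ⟨t₀, k, hf, rfl, hk⟩ := exists_fresh hZ i t h1 h2
    rw [Finset.mem_image]
    refine ⟨(t₀, k), ?_, rfl⟩
    rw [Finset.mem_product, Finset.mem_filter, Finset.mem_range, Finset.mem_range]
    refine ⟨⟨by omega, hf⟩, ?_⟩
    exact_mod_cast lt_of_le_of_lt hk h1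
  refine (Finset.card_le_card hsub).trans (Finset.card_image_le.trans ?_)
  rw [Finset.card_product, Finset.card_range]
  exact Nat.mul_le_mul_right s (card_fresh hZ N)

/-! ### Transposition -/

lemma swap_step (Z A : Set (ℕ × ℕ)) :
    step (Prod.swap ⁻¹' Z) (Prod.swap ⁻¹' A) = Prod.swap ⁻¹' (step Z A) := by
  ext ⟨i, j⟩
  simp only [step, Set.mem_union, Set.mem_preimage, Set.mem_setOf_eq, Prod.swap_prod_mk, row, col,
    InZ, Prod.exists]
  refine or_congr Iff.rfl (not_congr ?_)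
  constructor
  · rintro ⟨a, b, h1, h2, h3⟩
    exact ⟨b, a, h1, h3, h2⟩
  · rintro ⟨a, b, h1, h2, h3⟩
    exact ⟨b, a, h1, h3, h2⟩

lemma swap_iter (Z A : Set (ℕ × ℕ)) (t : ℕ) :
    (step (Prod.swap ⁻¹' Z))^[t] (Prod.swap ⁻¹' A) = Prod.swap ⁻¹' ((step Z)^[t] A) := by
  induction t with
  | zero => rfl
  | succ t ih => rw [Function.iterate_succ_apply', ih, swap_step, Function.iterate_succ_apply']

lemma swap_good {Z : Set (ℕ × ℕ)} {s : ℕ} (hZ : Good Z s) : Good (Prod.swap ⁻¹' Z) s := by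
  have key : ∀ {a b : ℕ∞}, InZ (Prod.swap ⁻¹' Z) a b ↔ InZ Z b a := by
    intro a b
    constructor
    · rintro ⟨p, hp, h1, h2⟩
      exact ⟨p.swap, hp, h2, h1⟩
    · rintro ⟨p, hp, h1, h2⟩
      exact ⟨p.swap, by simpa using hp, h2, h1⟩
  refine ⟨?_, ?_, ?_⟩
  · intro a b a' b' h ha hb
    rw [key] at h ⊢
    exact hZ.down h hb ha
  · intro a b ha hb
    rw [key]
    exact hZ.light hb ha
  · intro a b ha hb
    rw [key]
    exact hZ.heavy hb ha

/-- A light row changes in step `t`. -/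
def LR (Z A : Set (ℕ × ℕ)) (s t : ℕ) : Prop := LC (Prod.swap ⁻¹' Z) (Prod.swap ⁻¹' A) s t

lemma LR_iff {Z A : Set (ℕ × ℕ)} {s t : ℕ} : LR Z A s t ↔
    ∃ j : ℕ, {i : ℕ | (i, j) ∈ (step Z)^[t] A}.encard < s ∧
      {i : ℕ | (i, j) ∈ (step Z)^[t] A} ≠ {i : ℕ | (i, j) ∈ (step Z)^[t + 1] A} := by
  unfold LR LC
  rw [swap_iter, swap_iter]
  rfl

/-- If the process does not stop in step `t + 1`, then a light line changes in step `t` or
`t + 1`. -/
lemma light_of_change {Z A : Set (ℕ × ℕ)} {s : ℕ} (hZ : Good Z s) {t : ℕ}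
    (h : (step Z)^[t + 1] A ≠ (step Z)^[t + 1 + 1] A) :
    (LC Z A s t ∨ LR Z A s t) ∨ (LC Z A s (t + 1) ∨ LR Z A s (t + 1)) := by
  have hsub := iter_mono Z A (Nat.le_succ (t + 1))
  obtain ⟨⟨i, j⟩, hx2, hx1⟩ := Set.exists_of_ssubset (hsub.ssubset_of_ne h)
  by_cases hc : {j : ℕ | (i, j) ∈ (step Z)^[t + 1] A}.encard < s
  · right; left
    refine ⟨i, hc, fun he => hx1 ?_⟩
    have : j ∈ {j : ℕ | (i, j) ∈ (step Z)^[t + 1 + 1] A} := hx2
    rw [← he] at this
    exact this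
  by_cases hr : {i : ℕ | (i, j) ∈ (step Z)^[t + 1] A}.encard < s
  · right; right
    rw [LR_iff]
    refine ⟨j, hr, fun he => hx1 ?_⟩
    have : i ∈ {i : ℕ | (i, j) ∈ (step Z)^[t + 1 + 1] A} := hx2
    rw [← he] at this
    exact this
  left
  rw [not_lt] at hc hr
  -- at time `t` the two lines were not both heavy
  have hin : InZ Z {i : ℕ | (i, j) ∈ (step Z)^[t] A}.encard
      {j : ℕ | (i, j) ∈ (step Z)^[t] A}.encard := by
    by_contra hcon
    apply hx1
    rw [Function.iterate_succ_apply']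
    right
    exact hcon
  by_cases hr' : {i : ℕ | (i, j) ∈ (step Z)^[t] A}.encard < s
  · right
    rw [LR_iff]
    refine ⟨j, hr', fun he => ?_⟩
    rw [he] at hr'
    exact absurd hr' (not_lt.2 hr)
  · left
    have hc' : {j : ℕ | (i, j) ∈ (step Z)^[t] A}.encard < s := by
      by_contra hcon
      exact hZ.heavy (not_lt.1 hr') (not_lt.1 hcon) hin
    refine ⟨i, hc', fun he => ?_⟩
    rw [he] at hc'
    exact absurd hc' (not_lt.2 hc)

lemma stable {Z A : Set (ℕ × ℕ)} {t : ℕ} (h : (step Z)^[t] A = (step Z)^[t + 1] A) (k : ℕ) :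
    (step Z)^[t + k] A = (step Z)^[t] A := by
  induction k with
  | zero => rfl
  | succ k ih =>
    rw [← add_assoc, Function.iterate_succ_apply', ih, ← Function.iterate_succ_apply' (step Z) t A]
    exact h.symm

open Classical in
/-- The process stops after at most `2 s (s ^ 2 + s + 2) + 1` steps. -/
lemma stops {Z A : Set (ℕ × ℕ)} {s : ℕ} (hZ : Good Z s) :
    ∃ t ≤ 2 * (s * (s ^ 2 + s + 2)) + 1, (step Z)^[t] A = (step Z)^[t + 1] A := by
  by_contra hcon
  push Not at hcon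
  set M := s * (s ^ 2 + s + 2) with hM
  -- every pair `2 r + 1, 2 r + 2`, `r ≤ M - ...`, contains a light change
  let L : Finset ℕ := (Finset.range (2 * M + 2)).filter fun t => LC Z A s t ∨ LR Z A s t
  have hL : L.card ≤ M := by
    have h1 : L ⊆ (Finset.range (2 * M + 2)).filter (LC Z A s) ∪
        (Finset.range (2 * M + 2)).filter (LR Z A s) := by
      intro t ht
      simp only [L, Finset.mem_filter, Finset.mem_union] at ht ⊢
      tauto
    have h2 := card_LC (A := A) hZ (2 * M + 2)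
    have h3 := card_LC (A := Prod.swap ⁻¹' A) (swap_good hZ) (2 * M + 2)
    have h4 := (Finset.card_le_card h1).trans (Finset.card_union_le _ _)
    have h5 : ((Finset.range (2 * M + 2)).filter (LR Z A s)).card ≤
        (s * (s + 1) / 2 + 1) * s := h3
    have h6 : 2 * ((s * (s + 1) / 2 + 1) * s) ≤ M := by
      have h7 : 2 * (s * (s + 1) / 2) ≤ s * (s + 1) := Nat.mul_div_le _ _
      calc 2 * ((s * (s + 1) / 2 + 1) * s) = (2 * (s * (s + 1) / 2) + 2) * s := by ring
        _ ≤ (s * (s + 1) + 2) * s := Nat.mul_le_mul_right s (by omega)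
        _ = M := by rw [hM]; ring
    omega
  -- the pairs `{2 r, 2 r + 1}`, `r ≤ M`, are disjoint and all meet `L`
  have hmeet : ∀ r ∈ Finset.range (M + 1), ∃ t ∈ L, t / 2 = r := by
    intro r hr
    rw [Finset.mem_range] at hr
    have h1 := hcon (2 * r + 1) (by omega)
    rcases light_of_change hZ h1 with h | h
    · exact ⟨2 * r, by simp only [L, Finset.mem_filter, Finset.mem_range]; exact ⟨by omega, h⟩,
        by omega⟩
    · exact ⟨2 * r + 1, by
        simp only [L, Finset.mem_filter, Finset.mem_range]; exact ⟨by omega, h⟩, by omega⟩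
  have hcard : (Finset.range (M + 1)).card ≤ (L.image (fun t => t / 2)).card := by
    refine Finset.card_le_card fun r hr => ?_
    obtain ⟨t, ht, rfl⟩ := hmeet r hr
    exact Finset.mem_image_of_mem _ ht
  rw [Finset.card_range] at hcard
  have := hcard.trans Finset.card_image_le
  omega

/-- **Theorem.** For every nonempty zero-set `Z` the maximal spanning time satisfies
`μ(Z) ≤ 9 s ^ 3`, where `s` is the side of the largest square in `Z`. -/
theorem result (Z : Set (ℕ × ℕ)) (hZ : IsZeroSet Z) (hne : Z.Nonempty) (s : ℕ)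
    (h1 : rect s s ⊆ Z) (h2 : ¬ rect (s + 1) (s + 1) ⊆ Z) : mu Z ≤ ((9 * s ^ 3 : ℕ) : ℕ∞) := by
  have hgood := good_of_zeroSet hZ h1 h2
  have hs : 1 ≤ s := by
    by_contra hs0
    obtain rfl : s = 0 := by omega
    apply h2
    obtain ⟨I, -, rfl⟩ := hZ
    obtain ⟨x, hx⟩ := hne
    rintro ⟨a, b⟩ ⟨ha, hb⟩
    simp only at ha hb
    simp only [Set.mem_iUnion, rect, Set.mem_setOf_eq] at hx ⊢
    obtain ⟨p, hp, h3, h4⟩ := hx
    exact ⟨p, hp, by omega, by omega⟩
  unfold mu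
  refine iSup₂_le fun A hA => ?_
  obtain ⟨t, ht, hstop⟩ := stops (A := A) hgood
  have huniv : (step Z)^[t] A = Set.univ := by
    rw [Set.eq_univ_iff_forall]
    intro x
    have hx : x ∈ ⋃ t : ℕ, (step Z)^[t] A := by rw [hA.2]; trivial
    obtain ⟨t', ht'⟩ := Set.mem_iUnion.1 hx
    rcases le_total t' t with h | h
    · exact iter_mono Z A h ht'
    · obtain ⟨k, rfl⟩ := Nat.exists_eq_add_of_le h
      rwa [stable hstop k] at ht'
  have h3 : t ≤ 9 * s ^ 3 := by
    have h4 : s ≤ s ^ 3 := by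
      calc s = s ^ 1 := (pow_one s).symm
        _ ≤ s ^ 3 := Nat.pow_le_pow_right hs (by norm_num)
    have h5 : s ^ 2 ≤ s ^ 3 := Nat.pow_le_pow_right hs (by norm_num)
    have h6 : 1 ≤ s ^ 3 := Nat.one_le_pow _ _ hs
    have h7 : 2 * (s * (s ^ 2 + s + 2)) + 1 = 2 * s ^ 3 + 2 * s ^ 2 + 4 * s + 1 := by ring
    omega
  unfold tau
  exact (iInf₂_le t huniv).trans (by exact_mod_cast h3)

end Pool.Agent.Results.MP_e645df_co.CubicBound
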